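import Pool.Agent.H.MP_5e375b_co.T

namespace Pool.Agent.H.MP_5e375b_co

open Finset

lemma dig {m B : ℕ} (a b : Fin m → ℕ) (ha : ∀ i, a i < B) (hb : ∀ i, b i < B)
    (h : ∑ i, a i * B ^ i.val = ∑ i, b i * B ^ i.val) : a = b := by
  have : finFunctionFinEquiv (fun i => (⟨a i, ha i⟩ : Fin B)) =
      finFunctionFinEquiv fun i => (⟨b i, hb i⟩ : Fin B) := Fin.ext (by
    simpa [finFunctionFinEquiv_apply] using h)
  exact funext fun i => congrArg Fin.val (congrFun (finFunctionFinEquiv.injective this) i)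

lemma exE {V ι : Type} [Fintype V] [DecidableEq ι] (g g' : V → ι)
    (h : ∀ m, (univ.filter fun z => g z = m).card = (univ.filter fun z => g' z = m).card) :
    ∃ e : V ≃ V, ∀ z, g' (e z) = g z :=
  ⟨Equiv.ofFiberEquiv fun m => Fintype.equivOfCardEq (by
    simpa only [Fintype.card_subtype] using h m), fun z => Equiv.ofFiberEquiv_map _ z⟩

lemma fib_lt (x : Fin 156) : fib x < 2 := by unfold fib; split_ifs <;> omega
lemma rel_lt (x y : Fin 156) : rel x y < 3 := by unfold rel; split_ifs <;> omega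
lemma rel0 (x y : Fin 156) : rel x y = 0 ↔ x = y := by unfold rel; split_ifs <;> simp [*]
lemma rel1 (x y : Fin 156) : rel x y = 1 ↔ ad x y = true := by
  unfold rel; split_ifs with a b
  · simp [a, ad_irr]
  · simp [b]
  · simp [b]
lemma rel_symm (x y : Fin 156) : rel x y = rel y x := by
  simp only [rel, ad_symm x y, @eq_comm _ x y]

def gg (x y z : Fin 156) : Fin 18 := ⟨9 * fib z + 3 * rel x z + rel z y, by
  have := fib_lt z; have := rel_lt x z; have := rel_lt z y; omega⟩

lemma code (x y : Fin 156) : ∑ z, 256 ^ (gg x y z).val = tt (cc x y) := by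
  refine congrFun (dig (B := 256 ^ 18) (fun y => ∑ z, 256 ^ (gg x y z).val) (fun y => tt (cc x y))
    (fun y => ?_) (fun y => Nat.mod_lt _ (by positivity)) ?_) y
  · refine lt_of_le_of_lt (sum_le_card_nsmul _ _ (256 ^ 17) fun z _ =>
      Nat.pow_le_pow_right (by norm_num) (by have := (gg x y z).2; omega)) ?_
    simp
  · have := pack x
    simp only [RR, mul_sum, pw] at this
    rw [← this, sum_comm]
    simp only [sum_mul]
    refine sum_congr rfl fun y _ => sum_congr rfl fun z _ => ?_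
    rw [← mul_assoc, ← pow_add, show 3 * rel x z + (9 * fib z + rel z y) = (gg x y z).val by
      simp only [gg]; omega]

lemma move {x y x' y' : Fin 156} (h : cc x y = cc x' y') :
    ∃ e : Fin 156 ≃ Fin 156, ∀ z, cc x' (e z) = cc x z ∧ cc (e z) y' = cc z y := by
  have k : ∀ x y, ∑ z, 256 ^ (gg x y z).val =
      ∑ m : Fin 18, (univ.filter fun z => gg x y z = m).card * 256 ^ m.val := fun x y => by
    rw [← sum_fiberwise univ (gg x y)]
    refine sum_congr rfl fun m _ => ?_
    rw [sum_congr rfl fun z hz => by rw [(mem_filter.1 hz).2], sum_const, smul_eq_mul]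
  have b : ∀ x y m, (univ.filter fun z => gg x y z = m).card < 256 := fun x y m =>
    lt_of_le_of_lt (card_le_univ _) (by simp)
  obtain ⟨e, he⟩ := exE (gg x y) (gg x' y') (congrFun (dig _ _ (b x y) (b x' y')
    (by rw [← k, ← k, code, code, h])))
  refine ⟨e, fun z => ?_⟩
  have := congrArg Fin.val (he z)
  simp only [gg, cc] at this h ⊢
  have := fib_lt z; have := fib_lt (e z); have := fib_lt x; have := fib_lt x'; have := fib_lt y
  have := fib_lt y'; have := rel_lt x z; have := rel_lt z y; have := rel_lt x' (e z)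
  have := rel_lt (e z) y'; have := rel_lt x y; have := rel_lt x' y'
  omega

lemma inv (F : ℕ → ℕ → ℤ) (G : ℕ → ℤ) (h : ∀ k : Fin 12, k.val ≠ 3 → k.val ≠ 6 →
    ∑ z, F (cc (ra k) z) (cc z (rb k)) = G k) (x y : Fin 156) :
    ∑ z, F (cc x z) (cc z y) = G (cc x y) := by
  have h1 := fib_lt x; have h2 := fib_lt y; have h3 := rel_lt x y
  have h4 : rel x y = 0 → fib x = fib y := fun e => by rw [(rel0 x y).1 e]
  have a : cc x y < 12 ∧ cc x y ≠ 3 ∧ cc x y ≠ 6 := by unfold cc; omega
  obtain ⟨e, he⟩ := move (reps ⟨_, a.1⟩ a.2.1 a.2.2)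
  rw [← h ⟨_, a.1⟩ a.2.1 a.2.2, ← Equiv.sum_comp e]
  exact sum_congr rfl fun z _ => by rw [(he z).1, (he z).2]

def aa (i : ℕ) : ℤ := if i % 3 = 1 then 1 else 0
def be (i : ℕ) : ℤ := if i < 6 then 2 else 1
def ga (i : ℕ) : ℤ := if i < 6 then 4 else -5
def de (i : ℕ) : ℤ := if i = 0 then 6 else if i = 2 then -2 else if i = 7 then 1 else
  if i = 8 then -1 else 0
def sqq (i : ℕ) : ℤ := 4 * aa i + (if i % 3 = 0 then 32 else 0) +
  18 * be i * (if i % 6 < 3 then 2 else 1)

set_option maxRecDepth 100000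

lemma e1 : ∀ x y, ∑ z, aa (cc x z) * be (cc z y) = 80 * be (cc x y) :=
  inv (fun i j => aa i * be j) (fun i => 80 * be i) (by decide +kernel)
lemma e2 : ∀ x y, ∑ z, aa (cc x z) * ga (cc z y) = -4 * ga (cc x y) :=
  inv (fun i j => aa i * ga j) (fun i => -4 * ga i) (by decide +kernel)
lemma e3 : ∀ x y, ∑ z, aa (cc x z) * de (cc z y) = 8 * de (cc x y) :=
  inv (fun i j => aa i * de j) (fun i => 8 * de i) (by decide +kernel)
lemma e4 : ∀ x y, ∑ z, aa (cc x z) * aa (cc z y) = sqq (cc x y) :=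
  inv (fun i j => aa i * aa j) sqq (by decide +kernel)
lemma e5 : ∀ x y, ∑ z, aa (cc x z) = if cc x y < 6 then 104 else 50 :=
  inv (fun i _ => aa i) (fun i => if i < 6 then 104 else 50) (by decide +kernel)

lemma aa_cc (x y : Fin 156) : aa (cc x y) = if ad x y = true then 1 else 0 := by
  have := rel_lt x y
  simp only [aa, cc, ← rel1]
  exact if_congr (by omega) rfl rfl

end Pool.Agent.H.MP_5e375b_co
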